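import Mathlib
import Pool.Agent.W522.U.C6

/-!
# Strongly irreducible subspaces and equivariant maps
-/

set_option linter.unusedSectionVars false

namespace Pool.Agent.TH118.WC

open Module Pool.Agent.H204R3.SP Pool.Agent.H204R3.GP Pool.Agent.W522.U

noncomputable section

variable {K : Type*} [Field K] [CharZero K] {X Y : Type*} [AddCommGroup X] [Module K X]
  [FiniteDimensional K X] [AddCommGroup Y] [Module K Y] [FiniteDimensional K Y]
  {Γ : Type*} [Group Γ] {R : Representation K Γ X} {R' : Representation K Γ Y}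
  {U : Submodule K X} {T : X →ₗ[K] Y} {Δ : Subgroup Γ}

theorem map_inj (hU : SI R U) (hΔ : Δ.FiniteIndex) (hT : ∀ g ∈ Δ, ∀ x, T (R g x) = R' g (T x))
    (h0 : ∃ u ∈ U, T u ≠ 0) : ∀ u ∈ U, T u = 0 → u = 0 := by
  obtain ⟨Δ', hΔ', h1⟩ := hU.2.1
  have h2 : Pot R (U ⊓ LinearMap.ker T) := by
    refine ⟨Δ ⊓ Δ', inferInstance, fun g hg u hu => ⟨h1 g hg.2 u hu.1, ?_⟩⟩
    change T (R g u) = 0
    rw [hT g hg.1, LinearMap.mem_ker.1 hu.2, map_zero]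
  rcases hU.2.2 _ inf_le_left h2 with h3 | h3
  · intro u hu hTu
    have h4 : u ∈ U ⊓ LinearMap.ker T := ⟨hu, hTu⟩
    rwa [h3, Submodule.mem_bot] at h4
  · obtain ⟨u, hu, hTu⟩ := h0
    rw [← h3] at hu
    exact absurd hu.2 hTu

theorem si_map (hU : SI R U) (hΔ : Δ.FiniteIndex) (hT : ∀ g ∈ Δ, ∀ x, T (R g x) = R' g (T x))
    (h0 : ∃ u ∈ U, T u ≠ 0) : SI R' (U.map T) := by
  obtain ⟨Δ', hΔ', h1⟩ := id hU.2.1
  refine ⟨?_, ⟨Δ ⊓ Δ', inferInstance, ?_⟩, fun W hW hWP => ?_⟩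
  · obtain ⟨u, hu, hTu⟩ := h0
    intro h
    have h2 : T u ∈ U.map T := ⟨u, hu, rfl⟩
    rw [h, Submodule.mem_bot] at h2
    exact hTu h2
  · rintro g hg _ ⟨u, hu, rfl⟩
    exact ⟨R g u, h1 g hg.2 u hu, hT g hg.1 u⟩
  · obtain ⟨Δ2, hΔ2, h2⟩ := hWP
    have h3 : Pot R (U ⊓ W.comap T) := by
      refine ⟨Δ ⊓ (Δ' ⊓ Δ2), inferInstance, fun g hg u hu => ⟨h1 g hg.2.1 u hu.1, ?_⟩⟩
      change T (R g u) ∈ W
      rw [hT g hg.1]
      exact h2 g hg.2.2 _ hu.2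
    rcases hU.2.2 _ inf_le_left h3 with h4 | h4
    · left
      rw [eq_bot_iff]
      intro w hw
      obtain ⟨u, hu, rfl⟩ := hW hw
      have h5 : u ∈ U ⊓ W.comap T := ⟨hu, hw⟩
      rw [h4, Submodule.mem_bot] at h5
      rw [h5, map_zero]
      exact Submodule.zero_mem _
    · right
      refine le_antisymm hW ?_
      rintro _ ⟨u, hu, rfl⟩
      have h5 : u ∈ U ⊓ W.comap T := by
        rw [h4]
        exact hu
      exact h5.2

theorem exists_equiv_map (hU : SI R U) (hΔ : Δ.FiniteIndex)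
    (hT : ∀ g ∈ Δ, ∀ x, T (R g x) = R' g (T x)) (h0 : ∃ u ∈ U, T u ≠ 0) :
    ∃ e : U ≃ₗ[K] (U.map T), ∀ u : U, (e u : Y) = T u := by
  have hinj := map_inj hU hΔ hT h0
  let T1 : U →ₗ[K] (U.map T) := T.restrict (fun u hu => Submodule.mem_map_of_mem hu)
  have hb : Function.Bijective T1 := by
    constructor
    · rw [injective_iff_map_eq_zero]
      intro u hu
      have h2 : T u = 0 := congrArg Subtype.val hu
      exact Subtype.ext (hinj u u.2 h2)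
    · rintro ⟨_, u, hu, rfl⟩
      exact ⟨⟨u, hu⟩, rfl⟩
  exact ⟨LinearEquiv.ofBijective T1 hb, fun u => rfl⟩

theorem det_map (hT : ∀ g ∈ Δ, ∀ x, T (R g x) = R' g (T x)) (e : U ≃ₗ[K] (U.map T))
    (he : ∀ u : U, (e u : Y) = T u) {g : Γ} (hg : g ∈ Δ) (h : ∀ u ∈ U, R g u ∈ U)
    (h' : ∀ u ∈ U.map T, R' g u ∈ U.map T) :
    LinearMap.det ((R' g).restrict h') = LinearMap.det ((R g).restrict h) := by
  have h1 : (R' g).restrict h' = e.toLinearMap ∘ₗ (R g).restrict h ∘ₗ e.symm.toLinearMap := by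
    refine LinearMap.ext fun y => ?_
    obtain ⟨u, rfl⟩ := e.surjective y
    apply Subtype.ext
    rw [LinearMap.comp_apply, LinearMap.comp_apply, LinearEquiv.coe_coe, LinearEquiv.coe_coe,
      e.symm_apply_apply, he, LinearMap.coe_restrict_apply, LinearMap.coe_restrict_apply, he,
      hT g hg]
  rw [h1, LinearMap.det_conj]

theorem du_of_map {R : Representation K Γ X} {R' : Representation K Γ Y} {χ : Γ →* K}
    {U U' : Submodule K X} {T T' : X →ₗ[K] Y} (hΔ : Δ.FiniteIndex)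
    (hT : ∀ g ∈ Δ, ∀ x, T (R g x) = R' g (T x)) (hT' : ∀ g ∈ Δ, ∀ x, T' (R g x) = R' g (T' x))
    (h : Du R' χ (U.map T) (U'.map T')) : Du R χ U U' := by
  obtain ⟨Δ1, hΔ1, D, ⟨_, ⟨u, hu, rfl⟩, _, ⟨v, hv, rfl⟩, h1⟩, h2⟩ := h
  refine ⟨Δ ⊓ Δ1, inferInstance, D.compl₁₂ T T', ⟨u, hu, v, hv, h1⟩, fun g hg u hu v hv => ?_⟩
  rw [LinearMap.compl₁₂_apply, LinearMap.compl₁₂_apply, hT g hg.1, hT' g hg.1]
  exact h2 g hg.2 _ ⟨u, hu, rfl⟩ _ ⟨v, hv, rfl⟩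

end

end Pool.Agent.TH118.WC
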