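import Mathlib
import Pool.Agent.TH118.WC.X
import Pool.Agent.TH118.WC.Polar
import Pool.Agent.TH118.WC.Trans

/-!
# Alternating forms on the powers
-/

set_option linter.unusedSectionVars false

namespace Pool.Agent.TH118.WC

open Module Pool.Agent.H204R3.SP Pool.Agent.H204R3.GP Pool.Agent.W522.U

noncomputable section

variable {K : Type} [Field K] [CharZero K] {X : Type} [AddCommGroup X] [Module K X]
  [FiniteDimensional K X]
  {Γ : Type} [Group Γ]

/-- The diagonal action on a power. -/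
def powRep (R : Representation K Γ X) (n : ℕ) : Representation K Γ (Fin n → X) :=
  piRep (fun _ : Fin n => R)

/-- The sum of the forms on a power. -/
def powForm (ω : X →ₗ[K] X →ₗ[K] K) (n : ℕ) : (Fin n → X) →ₗ[K] (Fin n → X) →ₗ[K] K :=
  ∑ i, ω.compl₁₂ (LinearMap.proj i) (LinearMap.proj i)

theorem powForm_apply (ω : X →ₗ[K] X →ₗ[K] K) (n : ℕ) (x y : Fin n → X) :
    powForm ω n x y = ∑ i, ω (x i) (y i) := by
  unfold powForm
  rw [LinearMap.sum_apply, LinearMap.sum_apply]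
  rfl

/-- The product of the determinants of the subspaces `L q` is, on a subgroup of finite index, the
power of `χ` whose exponent is half of the sum of the dimensions. -/
def DetIsPower {Y : Type} [AddCommGroup Y] [Module K Y] (R : Representation K Γ Y) (χ : Γ →* K)
    {Q : Type} [Fintype Q] (L : Q → Submodule K Y) : Prop :=
  ∃ (c : ℕ) (Δ : Subgroup Γ) (h : ∀ q, ∀ g ∈ Δ, ∀ u ∈ L q, R g u ∈ L q), Δ.FiniteIndex ∧
    2 * c = ∑ q, finrank K (L q) ∧
    ∀ (g : Γ) (hg : g ∈ Δ), ∏ q, LinearMap.det ((R g).restrict (h q g hg)) = χ g ^ c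

/-- Strongly irreducible subspaces, never dual to each other, whose product of determinants is a
power of `χ`. -/
def IsWeilFamily {Y : Type} [AddCommGroup Y] [Module K Y] (R : Representation K Γ Y)
    (χ : Γ →* K) {Q : Type} [Fintype Q] (L : Q → Submodule K Y) : Prop :=
  (∀ q, SI R (L q)) ∧ (∀ q q', ¬Du R χ (L q) (L q')) ∧ DetIsPower R χ L

/-- The exterior products of alternating Tate forms `B p` of degree two and of the lines
`Λ^max (L q)` for a family as in `IsWeilFamily` (`b q` is a basis of `L q`, a vector is considered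
as a linear form by means of the form `powForm ω n`). -/
def WeilWedge (R : Representation K Γ X) (χ : Γ →* K) (ω : X →ₗ[K] X →ₗ[K] K) (n m : ℕ) :
    Set ((Fin m × Fin 2 → Fin n → X) → K) :=
  {g | ∃ (P Q : Type) (_ : Fintype P) (_ : Fintype Q) (d : Q → ℕ)
    (L : Q → Submodule K (Fin n → X)) (b : ∀ q, Basis (Fin (d q)) K (L q))
    (e : (P × Fin 2) ⊕ (Σ q, Fin (d q)) ≃ Fin m × Fin 2)
    (B : P → (Fin n → X) →ₗ[K] (Fin n → X) →ₗ[K] K),
    (∀ p, IsTate2 (powRep R n) χ (B p)) ∧ (∀ p y, B p y y = 0) ∧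
    IsWeilFamily (powRep R n) χ L ∧
    g = wedge e B (fun s => powForm ω n (b s.1 s.2 : Fin n → X))}

variable {R : Representation K Γ X} {χ : Γ →* K}

/-- The maps which represent bilinear forms. -/
theorem exists_rep (ω : X →ₗ[K] X →ₗ[K] K) (hnd : ∀ u, (∀ v, ω u v = 0) → u = 0)
    (hωR : ∀ g u v, ω (R g u) (R g v) = χ g * ω u v) (C : X →ₗ[K] X →ₗ[K] K)
    (hC : IsTate2 R χ C) (n : ℕ) (i : Fin n) :
    ∃ T : X →ₗ[K] (Fin n → X), (∀ u y, powForm ω n (T u) y = C (y i) u) ∧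
      ∃ Δ : Subgroup Γ, Δ.FiniteIndex ∧ ∀ g ∈ Δ, ∀ u, T (R g u) = powRep R n g (T u) := by
  classical
  have hinj : Function.Injective ω := by
    rw [injective_iff_map_eq_zero]
    intro u hu
    exact hnd u fun v => by rw [hu, LinearMap.zero_apply]
  let E := LinearMap.linearEquivOfInjective ω hinj (Subspace.dual_finrank_eq).symm
  have hE : ∀ (l : Dual K X) x, ω (E.symm l) x = l x := by
    intro l x
    have h1 : E (E.symm l) = l := E.apply_symm_apply l
    exact congrArg (fun f : Dual K X => f x) h1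
  let t : X →ₗ[K] X := E.symm.toLinearMap.comp C.flip
  have ht : ∀ u x, ω (t u) x = C x u := fun u x => hE (C.flip u) x
  obtain ⟨Δ, hΔ, hCΔ⟩ := hC
  have hte : ∀ g ∈ Δ, ∀ u, t (R g u) = R g (t u) := by
    intro g hg u
    apply hinj
    ext x
    obtain ⟨x', rfl⟩ : ∃ x', R g x' = x := ⟨R g⁻¹ x, by
      rw [← Module.End.mul_apply, ← map_mul, mul_inv_cancel, map_one]
      rfl⟩
    rw [ht, hωR, ht, hCΔ g hg]
  refine ⟨(LinearMap.single K (fun _ : Fin n => X) i).comp t, fun u y => ?_, Δ, hΔ,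
    fun g hg u => ?_⟩
  · rw [powForm_apply, Finset.sum_eq_single i]
    · change ω ((Pi.single i (t u) : Fin n → X) i) (y i) = _
      rw [Pi.single_eq_same, ht]
    · intro j _ hj
      change ω ((Pi.single i (t u) : Fin n → X) j) (y j) = _
      rw [Pi.single_eq_of_ne hj, map_zero, LinearMap.zero_apply]
    · intro h
      exact absurd (Finset.mem_univ i) h
  · change (Pi.single i (t (R g u)) : Fin n → X) = piRep _ g (Pi.single i (t u))
    rw [piRep_single, hte g hg]

/-- Alternation of the products of bilinear forms and determinants. -/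
theorem alt_mem (ω : X →ₗ[K] X →ₗ[K] K) (hnd : ∀ u, (∀ v, ω u v = 0) → u = 0)
    (hωR : ∀ g u v, ω (R g u) (R g v) = χ g * ω u v) {n m : ℕ}
    (I : Fin m × Fin 2 → Fin n) (φ : MultilinearMap K (fun _ : Fin m × Fin 2 => X) K)
    (hφ : φ ∈ DetProd R χ m) :
    (fun v : Fin m × Fin 2 → Fin n → X => ∑ σ : Equiv.Perm (Fin m × Fin 2),
      ((Equiv.Perm.sign σ : ℤ) : K) * φ (fun l => v (σ l) (I l))) ∈
      Submodule.span K (WeilWedge R χ ω n m) := by
  classical
  obtain ⟨P, Q, hP, hQ, U, f, e, B, C, hB, hC, hU, hUU, ⟨d, Δ, hΔU, hΔ, hd, hdet⟩, hφ⟩ := hφ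
  choose T hT ΔT hΔT hTe using fun (q : Q) (s : Fin (finrank K (U q))) =>
    exists_rep ω hnd hωR (C q s) (hC q s) n (I (e (Sum.inr ⟨q, s⟩)))
  let B' : P → (Fin n → X) →ₗ[K] (Fin n → X) →ₗ[K] K := fun p =>
    (B p).compl₁₂ (LinearMap.proj (I (e (Sum.inl (p, 0))))) (LinearMap.proj (I (e (Sum.inl (p, 1)))))
  have hB' : ∀ p, IsTate2 (powRep R n) χ (B' p) := by
    intro p
    obtain ⟨Δ1, hΔ1, h1⟩ := hB p
    exact ⟨Δ1, hΔ1, fun g hg u v => h1 g hg _ _⟩
  let c : ∀ q, Fin (finrank K (U q)) → Fin (finrank K (U q)) → Dual K (Fin n → X) :=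
    fun q s s' => powForm ω n (T q s (f q s' : X))
  have h1 : (fun v : Fin m × Fin 2 → Fin n → X => ∑ σ : Equiv.Perm (Fin m × Fin 2),
      ((Equiv.Perm.sign σ : ℤ) : K) * φ (fun l => v (σ l) (I l))) =
      ∑ A : (∀ q, Finset (Fin (finrank K (U q)))), (∏ q, (-1 : K) ^ (A q).card) •
        wedge e (fun p => (2⁻¹ : K) • (B' p - (B' p).flip))
          (fun s => ∑ t ∈ (A s.1)ᶜ, c s.1 t s.2) := by
    funext v
    rw [Finset.sum_apply]
    simp only [Pi.smul_apply, smul_eq_mul]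
    simp only [wedge_alt e B']
    rw [← det_wedge (fun q => finrank K (U q)) e B' c v]
    refine Finset.sum_congr rfl fun σ _ => ?_
    rw [hφ]
    have h2 : ∀ q, (Matrix.of fun s s' => C q s (v (σ (e (Sum.inr ⟨q, s⟩)))
        (I (e (Sum.inr ⟨q, s⟩)))) (f q s' : X)) =
        (Matrix.of fun s s' => c q s s' (v (σ (e (Sum.inr ⟨q, s⟩))))) := by
      intro q
      ext s s'
      rw [Matrix.of_apply, Matrix.of_apply]
      exact (hT q s (f q s') (v (σ (e (Sum.inr ⟨q, s⟩))))).symm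
    simp only [h2]
    rfl
  rw [h1]
  refine Submodule.sum_mem _ fun A _ => Submodule.smul_mem _ _ ?_
  let TA : Q → X →ₗ[K] (Fin n → X) := fun q => ∑ t ∈ (A q)ᶜ, T q t
  have hTA : ∀ s : (Σ q, Fin (finrank K (U q))), ∑ t ∈ (A s.1)ᶜ, c s.1 t s.2 =
      powForm ω n (TA s.1 (f s.1 s.2 : X)) := by
    intro s
    simp only [TA, c]
    rw [LinearMap.sum_apply, map_sum]
  simp only [hTA]
  let Δ0 : Subgroup Γ := ⨅ q, ⨅ s, ΔT q s
  have hΔ0 : Δ0.FiniteIndex := by
    have : ∀ q, (⨅ s, ΔT q s).FiniteIndex := fun q => Subgroup.finiteIndex_iInf (hΔT q)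
    exact Subgroup.finiteIndex_iInf this
  have hTAe : ∀ q, ∀ g ∈ Δ0, ∀ u, TA q (R g u) = powRep R n g (TA q u) := by
    intro q g hg u
    simp only [TA]
    rw [LinearMap.sum_apply, LinearMap.sum_apply, map_sum]
    refine Finset.sum_congr rfl fun t _ => ?_
    exact hTe q t g (Subgroup.mem_iInf.1 (Subgroup.mem_iInf.1 hg q) t) u
  by_cases h0 : ∀ q, ∃ u ∈ U q, TA q u ≠ 0
  · choose E hE using fun q => exists_equiv_map (hU q) hΔ0 (hTAe q) (h0 q)
    refine Submodule.subset_span ⟨P, Q, hP, hQ, fun q => finrank K (U q),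
      fun q => (U q).map (TA q), fun q => (f q).map (E q), e,
      fun p => (2⁻¹ : K) • (B' p - (B' p).flip), fun p => ?_, fun p y => ?_,
      ⟨fun q => si_map (hU q) hΔ0 (hTAe q) (h0 q), fun q q' h => hUU q q'
        (du_of_map hΔ0 (hTAe q) (hTAe q') h), ⟨d, Δ ⊓ Δ0, ?_, inferInstance, ?_, ?_⟩⟩, ?_⟩
    · obtain ⟨Δ1, hΔ1, h2⟩ := hB' p
      refine ⟨Δ1, hΔ1, fun g hg u v => ?_⟩
      simp only [LinearMap.smul_apply, LinearMap.sub_apply, LinearMap.flip_apply, h2 g hg,
        smul_eq_mul]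
      ring
    · simp only [LinearMap.smul_apply, LinearMap.sub_apply, LinearMap.flip_apply, sub_self,
        smul_zero]
    · rintro q g hg _ ⟨u, hu, rfl⟩
      exact ⟨R g u, hΔU q g hg.1 u hu, hTAe q g hg.2 u⟩
    · rw [hd]
      exact Finset.sum_congr rfl fun q _ => (E q).finrank_eq
    · intro g hg
      rw [← hdet g hg.1]
      refine Finset.prod_congr rfl fun q _ => ?_
      exact det_map (hTAe q) (E q) (hE q) hg.2 _ _
    · congr 1
      funext s
      rw [Basis.map_apply, hE]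
  · push Not at h0
    obtain ⟨q, hq⟩ := h0
    have hpos : 0 < finrank K (U q) := by
      rw [Nat.pos_iff_ne_zero, ne_eq, Submodule.finrank_eq_zero]
      exact (hU q).1
    have h2 : wedge e (fun p => (2⁻¹ : K) • (B' p - (B' p).flip))
        (fun s : (Σ q, Fin (finrank K (U q))) => powForm ω n (TA s.1 (f s.1 s.2 : X))) = 0 := by
      funext v
      rw [wedge_apply]
      refine Finset.sum_eq_zero fun σ _ => ?_
      have h3 : ∏ s : (Σ q, Fin (finrank K (U q))), powForm ω n (TA s.1 (f s.1 s.2 : X))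
          (v (σ (e (Sum.inr s)))) = 0 := by
        refine Finset.prod_eq_zero (Finset.mem_univ ⟨q, ⟨0, hpos⟩⟩) ?_
        rw [hq _ (f q ⟨0, hpos⟩).2, map_zero, LinearMap.zero_apply]
      rw [h3, mul_zero, mul_zero]
    rw [h2]
    exact Submodule.zero_mem _

end

end Pool.Agent.TH118.WC
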