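import Mathlib
import Pool.Agent.TH118.WC.Alt
import Pool.Agent.TH115.Toric
import Pool.Agent.H204R3.GP.Defs

/-!
# Tate classes on the powers are generated by classes of degree two and determinant classes
-/

set_option linter.unusedSectionVars false

namespace Pool.Agent.TH118.WC

open Module TensorProduct Pool.Agent.H204R3.SP Pool.Agent.H204R3.GP Pool.Agent.W522.U
open Pool.Agent.W529.Ta Pool.Agent.W528.Odd

noncomputable section

theorem toric_det {K : Type} [Field K] [CharZero K] [IsAlgClosed K] {X : Type} [AddCommGroup X]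
    [Module K X] [FiniteDimensional K X] {Γ : Type} [Group Γ] {R : Representation K Γ X}
    {χ : Γ →* K} (ω : X →ₗ[K] X →ₗ[K] K)
    (hnd : ∀ u, (∀ v, ω u v = 0) → u = 0)
    (hωR : ∀ g u v, ω (R g u) (R g v) = χ g * ω u v)
    (hcu : Pool.Agent.TH115.Toric.HasToricPlaces R χ) (hR2 : LinesNotSelfDual R χ)
    (hH : TwistFree R χ) (hss : HasProj R)
    {m : ℕ} (φ : MultilinearMap K (fun _ : Fin m × Fin 2 => X) K) (hφ : IsTate R χ m φ) :
    φ ∈ Submodule.span K (DetProd R χ m) := by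
  refine main_det_X ω hnd hωR ?_ hss hR2 hH φ hφ
  intro U hU h2
  obtain ⟨γ, hγ, hr | ⟨halt, hr | ⟨hodd, hP⟩⟩⟩ := hcu U hU h2
  · exact ⟨γ, hγ, Or.inl hr⟩
  · refine ⟨γ, hγ, Or.inr ⟨?_, halt, ?_⟩⟩
    · exact Pool.Agent.TH115.Toric.ne_bot_of_pos (by omega)
    · exact Pool.Agent.TH115.Toric.coreProp_small ω hnd hωR hU hγ
        (Pool.Agent.TH115.Toric.ne_bot_of_pos (by omega)) (by omega)
  · refine ⟨γ, hγ, Or.inr ⟨?_, halt, coreProp_odd ω hnd hωR hss hP hU hγ hodd⟩⟩
    exact Pool.Agent.TH115.Toric.ne_bot_of_pos hodd.pos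

variable {k : Type} [Field k] [CharZero k] {V : Type} [AddCommGroup V] [Module k V]
  [FiniteDimensional k V] {Γ : Type} [Group Γ]

/-- The values of a form over `K` at vectors over `k`. -/
def restr (K : Type) [Field K] [Algebra k K] {n m : ℕ}
    (g : (Fin m × Fin 2 → Fin n → K ⊗[k] V) → K) : (Fin m × Fin 2 → Fin n → V) → K :=
  fun v => g (fun l i => (1 : K) ⊗ₜ[k] v l i)

/-- Over the extension `K` of `k`, all Tate classes on all powers are linear combinations of exterior
products of Tate classes of degree two and of determinant classes (`WeilWedge`). -/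
def TateGeneratedByWeil (K : Type) [Field K] [CharZero K] [Algebra k K]
    (ρ : Representation k Γ V) (χ : Γ →* k) (ω : V →ₗ[k] V →ₗ[k] k) : Prop :=
  ∀ (n m : ℕ) (f : (Fin n → V) [⋀^Fin m × Fin 2]→ₗ[k] k), IsTateClass ρ χ m f →
    (fun v => algebraMap k K (f v)) ∈
      Submodule.span K (restr K '' WeilWedge (bcr ρ K) (bcc χ K) (bcb K ω) n m)

/-- From tensors to classes on the powers. -/
theorem classes_of_tensors (K : Type) [Field K] [CharZero K] [Algebra k K]
    (ρ : Representation k Γ V) (χ : Γ →* k) (ω : (K ⊗[k] V) →ₗ[K] (K ⊗[k] V) →ₗ[K] K)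
    (hnd : ∀ u, (∀ v, ω u v = 0) → u = 0)
    (hωR : ∀ g u v, ω (bcr ρ K g u) (bcr ρ K g v) = bcc χ K g * ω u v) {n m : ℕ}
    (hall : ∀ (φ : MultilinearMap K (fun _ : Fin m × Fin 2 => K ⊗[k] V) K),
      IsTate (bcr ρ K) (bcc χ K) m φ → φ ∈ Submodule.span K (DetProd (bcr ρ K) (bcc χ K) m))
    (f : (Fin n → V) [⋀^Fin m × Fin 2]→ₗ[k] k) (hf : IsTateClass ρ χ m f) :
    (fun v : Fin m × Fin 2 → Fin n → V => algebraMap k K (f v)) ∈
      Submodule.span K ((fun (g : (Fin m × Fin 2 → Fin n → K ⊗[k] V) → K)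
        (v : Fin m × Fin 2 → Fin n → V) => g (fun l i => (1 : K) ⊗ₜ[k] v l i)) ''
          WeilWedge (bcr ρ K) (bcc χ K) ω n m) := by
  classical
  obtain ⟨Δ, hΔ, hf⟩ := hf
  let b := Module.finBasis k V
  let fc : (Fin m × Fin 2 → Fin n) → MultilinearMap k (fun _ : Fin m × Fin 2 => V) k := fun c =>
    f.toMultilinearMap.compLinearMap (fun l => LinearMap.single k (fun _ : Fin n => V) (c l))
  have hfc : ∀ c, IsTate ρ χ m (fc c) := by
    intro c
    refine ⟨Δ, hΔ, fun s hs v => ?_⟩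
    have h1 := hf s hs (fun l => Pi.single (c l) (v l))
    change f (fun l => Pi.single (c l) (ρ s (v l))) = χ s ^ m * f (fun l => Pi.single (c l) (v l))
    rw [← h1]
    congr 1
    funext l i
    by_cases h : i = c l
    · subst h
      rw [Pi.single_eq_same, Pi.single_eq_same]
    · rw [Pi.single_eq_of_ne h, Pi.single_eq_of_ne h, map_zero]
  have hF : ∀ c, bcm (Ω := K) b (fc c) ∈ Submodule.span K (DetProd (bcr ρ K) (bcc χ K) m) :=
    fun c => hall _ (bcm_tate (Ω := K) b ρ χ (fc c) (hfc c))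
  -- alternation
  let J : (Fin m × Fin 2 → Fin n) → MultilinearMap K (fun _ : Fin m × Fin 2 => K ⊗[k] V) K →ₗ[K]
      ((Fin m × Fin 2 → Fin n → K ⊗[k] V) → K) := fun c =>
    { toFun := fun φ v => ∑ σ : Equiv.Perm (Fin m × Fin 2),
        ((Equiv.Perm.sign σ : ℤ) : K) * φ (fun l => v (σ l) (c l))
      map_add' := fun φ φ' => by
        funext v
        simp only [_root_.add_apply, mul_add, Finset.sum_add_distrib, Pi.add_apply]
      map_smul' := fun a φ => by
        funext v
        simp only [_root_.smul_apply, smul_eq_mul, RingHom.id_apply, Pi.smul_apply, Finset.mul_sum]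
        refine Finset.sum_congr rfl fun σ _ => ?_
        ring }
  have hJ : ∀ c, J c (bcm (Ω := K) b (fc c)) ∈
      Submodule.span K (WeilWedge (bcr ρ K) (bcc χ K) ω n m) := by
    intro c
    have h1 : (Submodule.span K (DetProd (bcr ρ K) (bcc χ K) m)).map (J c) ≤
        Submodule.span K (WeilWedge (bcr ρ K) (bcc χ K) ω n m) := by
      rw [Submodule.map_span, Submodule.span_le]
      rintro _ ⟨φ, hφ, rfl⟩
      exact alt_mem ω hnd hωR c φ hφ
    exact h1 (Submodule.mem_map_of_mem (hF c))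
  let ev : ((Fin m × Fin 2 → Fin n → K ⊗[k] V) → K) →ₗ[K] ((Fin m × Fin 2 → Fin n → V) → K) :=
    { toFun := fun g v => g (fun l i => (1 : K) ⊗ₜ[k] v l i)
      map_add' := fun _ _ => rfl
      map_smul' := fun _ _ => rfl }
  have hev : ∀ c, ev (J c (bcm (Ω := K) b (fc c))) ∈
      Submodule.span K ((fun (g : (Fin m × Fin 2 → Fin n → K ⊗[k] V) → K)
        (v : Fin m × Fin 2 → Fin n → V) => g (fun l i => (1 : K) ⊗ₜ[k] v l i)) ''
          WeilWedge (bcr ρ K) (bcc χ K) ω n m) := by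
    intro c
    have h1 : (Submodule.span K (WeilWedge (bcr ρ K) (bcc χ K) ω n m)).map ev ≤
        Submodule.span K ((fun (g : (Fin m × Fin 2 → Fin n → K ⊗[k] V) → K)
        (v : Fin m × Fin 2 → Fin n → V) => g (fun l i => (1 : K) ⊗ₜ[k] v l i)) ''
          WeilWedge (bcr ρ K) (bcc χ K) ω n m) := by
      rw [Submodule.map_span]
      exact le_refl _
    exact h1 (Submodule.mem_map_of_mem (hJ c))
  -- the sum
  have hsum : ((Fintype.card (Equiv.Perm (Fin m × Fin 2)) : K)) •
      (fun v : Fin m × Fin 2 → Fin n → V => algebraMap k K (f v)) =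
      ∑ c, ev (J c (bcm (Ω := K) b (fc c))) := by
    funext v
    rw [Finset.sum_apply, Pi.smul_apply, smul_eq_mul]
    change _ = ∑ c, ∑ σ : Equiv.Perm (Fin m × Fin 2), ((Equiv.Perm.sign σ : ℤ) : K) *
      bcm (Ω := K) b (fc c) (fun l => (1 : K) ⊗ₜ[k] v (σ l) (c l))
    rw [Finset.sum_comm, ← Finset.card_univ, ← nsmul_eq_mul, ← Finset.sum_const]
    refine Finset.sum_congr rfl fun σ _ => ?_
    have h1 : ∀ c, bcm (Ω := K) b (fc c) (fun l => (1 : K) ⊗ₜ[k] v (σ l) (c l)) =
        algebraMap k K (f (fun l => Pi.single (c l) (v (σ l) (c l)))) := fun c =>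
      bcm_one b (fc c) _
    simp only [h1]
    rw [← Finset.mul_sum, ← map_sum]
    have h2 : ∑ c : Fin m × Fin 2 → Fin n, f (fun l => Pi.single (c l) (v (σ l) (c l))) =
        f (fun l => v (σ l)) := by
      have h3 : (fun l => v (σ l)) = fun l => ∑ i, Pi.single i (v (σ l) i) := by
        funext l
        exact (Finset.univ_sum_single (v (σ l))).symm
      rw [h3]
      exact (f.toMultilinearMap.map_sum (fun l i => (Pi.single i (v (σ l) i) : Fin n → V))).symm
    rw [h2]
    have h4 := f.map_perm v σ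
    change f (fun l => v (σ l)) = _ at h4
    rw [h4, Units.smul_def, zsmul_eq_mul, map_mul, map_intCast, ← mul_assoc, ← Int.cast_mul,
      ← Units.val_mul, ← _root_.sq, Int.units_sq]
    simp
  have hc : (Fintype.card (Equiv.Perm (Fin m × Fin 2)) : K) ≠ 0 :=
    Nat.cast_ne_zero.2 Fintype.card_ne_zero
  have h1 : (fun v : Fin m × Fin 2 → Fin n → V => algebraMap k K (f v)) =
      ((Fintype.card (Equiv.Perm (Fin m × Fin 2)) : K))⁻¹ •
        ∑ c, ev (J c (bcm (Ω := K) b (fc c))) := by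
    rw [← hsum, smul_smul, inv_mul_cancel₀ hc, one_smul]
  rw [h1]
  exact Submodule.smul_mem _ _ (Submodule.sum_mem _ fun c _ => hev c)

end

end Pool.Agent.TH118.WC
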